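import Pool.Agent.W320.CL.GEN
import Pool.Agent.W245.PB.Tup
import Pool.Agent.W245.PB.PLog

set_option autoImplicit false

/-!
# Linear relations between vectors twisted by generic numbers, over any field
-/

namespace Pool.Agent.Q221.TW

open Module Finset

section
variable {κ C : Type*} [Field κ] [Field C] [Algebra κ C]

theorem pow_fin (W : Submodule κ C) (N k : ℕ) (hf : Module.Finite κ W) (hW : finrank κ W ≤ N) :
    Module.Finite κ (W ^ k : Submodule κ C) ∧ finrank κ (W ^ k : Submodule κ C) ≤ N ^ k := by
  induction k with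
  | zero =>
    rw [pow_zero, pow_zero, Submodule.one_eq_span]
    refine ⟨FiniteDimensional.span_of_finite _ (Set.finite_singleton _), ?_⟩
    rw [finrank_span_singleton one_ne_zero]
  | succ k ih =>
    obtain ⟨h1, h2⟩ := ih
    rw [pow_succ, pow_succ]
    have := h1
    have := hf
    rw [← Submodule.mulMap_range]
    constructor
    · infer_instance
    · refine (LinearMap.finrank_range_le _).trans ?_
      rw [Module.finrank_tensorProduct]
      exact Nat.mul_le_mul h2 hW

theorem le_pow_of_one {W : Submodule κ C} (h1 : (1 : C) ∈ W) {a b : ℕ}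
    (hab : a ≤ b) : W ^ a ≤ W ^ b := by
  induction hab with
  | refl => exact le_rfl
  | step _ ih =>
    refine ih.trans ?_
    intro x hx
    rw [pow_succ]
    rw [← mul_one x]
    exact Submodule.mul_mem_mul hx h1

theorem prod_mem_pow {W : Submodule κ C} {ι : Type*} (s : Finset ι) (f : ι → C)
    (hf : ∀ i ∈ s, f i ∈ W) : ∏ i ∈ s, f i ∈ W ^ s.card := by
  classical
  induction s using Finset.induction_on with
  | empty =>
    rw [Finset.prod_empty, Finset.card_empty, pow_zero]
    exact Submodule.one_le.1 le_rfl
  | insert i s hi ih =>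
    rw [Finset.prod_insert hi, Finset.card_insert_of_notMem hi, pow_succ']
    exact Submodule.mul_mem_mul (hf i (mem_insert_self _ _))
      (ih fun j hj => hf j (mem_insert_of_mem hj))

theorem det_mem {W : Submodule κ C} {m : Type*} [Fintype m] [DecidableEq m] (M : Matrix m m C)
    (hM : ∀ i j, M i j ∈ W) : M.det ∈ W ^ Fintype.card m := by
  rw [Matrix.det_apply]
  refine Submodule.sum_mem _ fun σ _ => ?_
  have h1 : ∏ i, M (σ i) i ∈ W ^ Fintype.card m := by
    have := prod_mem_pow (Finset.univ : Finset m) (fun i => M (σ i) i) (fun i _ => hM _ _)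
    rwa [Finset.card_univ] at this
  rcases Int.units_eq_one_or (Equiv.Perm.sign σ) with h | h
  · rw [h, one_smul]
    exact h1
  · rw [h, Units.neg_smul, one_smul]
    exact Submodule.neg_mem _ h1

/-- Columns of a matrix with independent rows which give a nonzero minor. -/
theorem exists_minor {ι S : Type} [Fintype ι] [DecidableEq ι] [Fintype S] (y : ι → S → C)
    (hy : LinearIndependent C y) : ∃ J : ι → S, (Matrix.of fun s k => y k (J s)).det ≠ 0 := by
  classical
  set M : Matrix ι S C := Matrix.of y with hM
  have hrank : M.rank = Fintype.card ι := LinearIndependent.rank_matrix (M := M) hy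
  have hcol : finrank C (Submodule.span C (Set.range M.col)) = Fintype.card ι := by
    rw [← Matrix.rank_eq_finrank_span_cols, hrank]
  have htop : Submodule.span C (Set.range M.col) = ⊤ := by
    apply Submodule.eq_top_of_finrank_eq
    rw [hcol, Module.finrank_fintype_fun_eq_card]
  obtain ⟨T, a, ha, hspan, hli⟩ := exists_linearIndependent' C M.col
  have : Finite T := Finite.of_injective a ha
  have : Fintype T := Fintype.ofFinite T
  have hcT : Fintype.card T = Fintype.card ι := by
    rw [← finrank_span_eq_card hli, hspan, hcol]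
  obtain ⟨e⟩ : Nonempty (ι ≃ T) := ⟨Fintype.equivOfCardEq hcT.symm⟩
  refine ⟨fun k => a (e k), ?_⟩
  have hli2 : LinearIndependent C (fun k : ι => M.col (a (e k))) := hli.comp e e.injective
  set A : Matrix ι ι C := Matrix.of fun s k => y k (a (e s)) with hA
  have h3 : LinearIndependent C A.row := by
    have h5 : A.row = fun k : ι => M.col (a (e k)) := by
      funext s k
      rfl
    rw [h5]
    exact hli2
  have h4 := Matrix.linearIndependent_rows_iff_isUnit.1 h3
  rw [Matrix.isUnit_iff_isUnit_det] at h4
  exact h4.ne_zero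

/-- Cramer's rule: dependent vectors with entries in `W` have a relation with coefficients in a power
of `W`. -/
theorem dep {ι S : Type} [Fintype ι] [Fintype S] {W : Submodule κ C} (h1 : (1 : C) ∈ W)
    (D : ι → S → C) (hD : ∀ i s, D i s ∈ W) (hdep : ¬ LinearIndependent C D) :
    ∃ c : ι → C, c ≠ 0 ∧ (∀ i, c i ∈ W ^ Fintype.card ι) ∧ ∑ i, c i • D i = 0 := by
  classical
  obtain ⟨T, a, ha, hspan, hli⟩ := exists_linearIndependent' C D
  have : Finite T := Finite.of_injective a ha
  have : Fintype T := Fintype.ofFinite T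
  have hns : ¬ Function.Surjective a := by
    intro hs
    apply hdep
    let e : T ≃ ι := Equiv.ofBijective a ⟨ha, hs⟩
    have h2 := hli.comp e.symm e.symm.injective
    have h5 : D = (D ∘ a) ∘ e.symm := by
      funext i
      show D i = D (a (e.symm i))
      congr 1
      exact (e.apply_symm_apply i).symm
    rw [h5]
    exact h2
  unfold Function.Surjective at hns
  push Not at hns
  obtain ⟨i1, hi1⟩ := hns
  have hmem : D i1 ∈ Submodule.span C (Set.range (D ∘ a)) := by
    rw [hspan]
    exact Submodule.subset_span ⟨i1, rfl⟩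
  obtain ⟨t, ht⟩ := (Submodule.mem_span_range_iff_exists_fun C).1 hmem
  obtain ⟨J, hJ⟩ := exists_minor (D ∘ a) hli
  set A : Matrix T T C := Matrix.of fun s k => (D ∘ a) k (J s) with hA
  set b : T → C := fun s => D i1 (J s) with hb
  have hAt : A.mulVec t = b := by
    funext s
    have h2 := congrFun ht (J s)
    rw [Finset.sum_apply] at h2
    show ∑ k, A s k * t k = D i1 (J s)
    rw [← h2]
    refine Finset.sum_congr rfl fun k _ => ?_
    show D (a k) (J s) * t k = (t k • (D ∘ a) k) (J s)
    rw [Pi.smul_apply, smul_eq_mul, mul_comm]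
    rfl
  have hcr : ∀ k, A.det * t k = (A.updateCol k b).det := by
    intro k
    have h2 : Matrix.cramer A b = A.det • t := by
      rw [Matrix.cramer_eq_adjugate_mulVec, ← hAt, Matrix.mulVec_mulVec, Matrix.adjugate_mul,
        Matrix.smul_mulVec, Matrix.one_mulVec]
    have h3 := congrFun h2 k
    rw [Matrix.cramer_apply, Pi.smul_apply, smul_eq_mul] at h3
    exact h3.symm
  have hcard : Fintype.card T ≤ Fintype.card ι := Fintype.card_le_of_injective a ha
  have hdetW : A.det ∈ W ^ Fintype.card ι :=
    le_pow_of_one h1 hcard (det_mem A fun i j => hD _ _)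
  have htW : ∀ k, A.det * t k ∈ W ^ Fintype.card ι := by
    intro k
    rw [hcr]
    refine le_pow_of_one h1 hcard (det_mem _ fun i j => ?_)
    by_cases hjk : j = k
    · subst hjk
      rw [Matrix.updateCol_self]
      exact hD _ _
    · rw [Matrix.updateCol_ne hjk]
      exact hD _ _
  refine ⟨fun i => ∑ k, (if a k = i then A.det * t k else 0) - (if i1 = i then A.det else 0),
    ?_, ?_, ?_⟩
  · intro h
    have h2 := congrFun h i1
    simp only [Pi.zero_apply, if_true] at h2
    rw [Finset.sum_eq_zero, zero_sub, neg_eq_zero] at h2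
    · exact hJ h2
    · intro k _
      rw [if_neg (hi1 k)]
  · intro i
    refine Submodule.sub_mem _ (Submodule.sum_mem _ fun k _ => ?_) ?_
    · split_ifs
      · exact htW k
      · exact Submodule.zero_mem _
    · split_ifs
      · exact hdetW
      · exact Submodule.zero_mem _
  · have h2 : ∑ i, (∑ k, (if a k = i then A.det * t k else 0) - (if i1 = i then A.det else 0)) • D i
        = ∑ k, (A.det * t k) • D (a k) - A.det • D i1 := by
      simp only [sub_smul, Finset.sum_sub_distrib, Finset.sum_smul]
      congr 1
      · rw [Finset.sum_comm]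
        refine Finset.sum_congr rfl fun k _ => ?_
        simp only [ite_smul, zero_smul]
        rw [Finset.sum_ite_eq]
        simp
      · simp only [ite_smul, zero_smul]
        rw [Finset.sum_ite_eq]
        simp
    rw [h2, ← ht, Finset.smul_sum, sub_eq_zero]
    refine Finset.sum_congr rfl fun k _ => ?_
    rw [smul_smul]
    rfl

/-- The linear algebra of twisted vectors. -/
theorem core [CharZero C] {l : ℕ} {S : Type} [Fintype S] (s0 : S) {W : Submodule κ C}
    (h1 : (1 : C) ∈ W) (N : Fin l → S → C) (hN : ∀ j s, N j s ∈ W) (u : Fin l → C)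
    (hNL : ∀ c : Fin l → C, (∀ j, c j ∈ W ^ (l + 1)) → ∑ j, c j * u j ∈ W ^ (l + 1) →
      ∀ j, c j = 0)
    {r : ℕ} (m : Fin r → Fin l → ℤ) (hm : LinearIndependent ℤ m)
    (hone : (fun _ : S => (1 : C)) ∉ Submodule.span C
      (Set.range fun (i : Fin r) (s : S) => ∑ j, (m i j : C) * (u j + N j s))) :
    LinearIndependent C (fun (i : Fin r) (s : S) => ∑ j, (m i j : C) * (u j + N j s)) := by
  classical
  set lam : Fin r → S → C := fun i s => ∑ j, (m i j : C) * (u j + N j s) with hlam
  have hrl : r ≤ l := by
    have := hm.fintype_card_le_finrank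
    rw [Fintype.card_fin, Module.finrank_fintype_fun_eq_card, Fintype.card_fin] at this
    exact this
  by_contra hcon
  set D : Fin r → S → C := fun i s => ∑ j, (m i j : C) * (N j s - N j s0) with hDdef
  have hDlam : ∀ i s, D i s = lam i s - lam i s0 := by
    intro i s
    simp only [hDdef, hlam, ← Finset.sum_sub_distrib]
    exact Finset.sum_congr rfl fun j _ => by ring
  have hint : ∀ (V : Submodule κ C) (z : ℤ) (x : C), x ∈ V → (z : C) * x ∈ V := by
    intro V z x hx
    have := zsmul_mem hx z
    simpa [zsmul_eq_mul] using this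
  have hDW : ∀ i s, D i s ∈ W := by
    intro i s
    exact Submodule.sum_mem _ fun j _ => hint W _ _ (Submodule.sub_mem _ (hN _ _) (hN _ _))
  have hdep : ¬ LinearIndependent C D := by
    rw [Fintype.not_linearIndependent_iff] at hcon ⊢
    obtain ⟨g, hg, hi⟩ := hcon
    refine ⟨g, ?_, hi⟩
    have h2 : ∀ s, ∑ i, g i * lam i s = 0 := by
      intro s
      have := congrFun hg s
      simpa [Finset.sum_apply] using this
    funext s
    rw [Finset.sum_apply]
    show ∑ i, g i * D i s = 0
    simp only [hDlam, mul_sub, Finset.sum_sub_distrib, h2, sub_zero]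
  obtain ⟨c, hc0, hcW, hcD⟩ := dep h1 D hDW hdep
  rw [Fintype.card_fin] at hcW
  set q : C := ∑ i, c i * lam i s0 with hq
  have hcl : ∑ i, c i • lam i = q • (fun _ : S => (1 : C)) := by
    funext s
    have h2 := congrFun hcD s
    rw [Finset.sum_apply] at h2 ⊢
    simp only [Pi.smul_apply, smul_eq_mul, Pi.zero_apply, mul_one] at h2 ⊢
    simp only [hDlam, mul_sub, Finset.sum_sub_distrib] at h2
    rw [sub_eq_zero] at h2
    exact h2
  have hq0 : q = 0 := by
    by_contra hqne
    apply hone
    have h2 : (fun _ : S => (1 : C)) = q⁻¹ • ∑ i, c i • lam i := by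
      rw [hcl, smul_smul, inv_mul_cancel₀ hqne, one_smul]
    rw [h2]
    exact Submodule.smul_mem _ _ (Submodule.sum_mem _ fun i _ =>
      Submodule.smul_mem _ _ (Submodule.subset_span ⟨i, rfl⟩))
  set e : Fin l → C := fun j => ∑ i, c i * (m i j : C) with he
  have heW : ∀ j, e j ∈ W ^ r := by
    intro j
    refine Submodule.sum_mem _ fun i _ => ?_
    rw [mul_comm]
    exact hint _ _ _ (hcW i)
  have hsum : ∑ j, e j * u j = -∑ j, e j * N j s0 := by
    rw [eq_neg_iff_add_eq_zero, ← Finset.sum_add_distrib, ← hq0, hq]
    simp only [he, hlam, Finset.mul_sum, Finset.sum_mul]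
    rw [Finset.sum_comm]
    refine Finset.sum_congr rfl fun j _ => ?_
    rw [← Finset.sum_add_distrib]
    exact Finset.sum_congr rfl fun i _ => by ring
  have he0 : ∀ j, e j = 0 := by
    apply hNL e (fun j => le_pow_of_one h1 (by omega) (heW j))
    rw [hsum]
    refine Submodule.neg_mem _ (Submodule.sum_mem _ fun j _ => ?_)
    have : e j * N j s0 ∈ W ^ (r + 1) := by
      rw [pow_succ]
      exact Submodule.mul_mem_mul (heW j) (hN _ _)
    exact le_pow_of_one h1 (by omega) this
  -- independence over `C`
  have hmC : LinearIndependent C (fun (i : Fin r) (j : Fin l) => ((m i j : ℤ) : C)) := by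
    rw [Fintype.linearIndependent_iff]
    intro g hg
    have hmQ : LinearIndependent ℚ (fun (i : Fin r) (j : Fin l) => ((m i j : ℤ) : ℚ)) := by
      rw [Fintype.linearIndependent_iff]
      intro g hg
      obtain ⟨N0, hN0, hNg⟩ : ∃ N0 : ℤ, N0 ≠ 0 ∧ ∀ i, ∃ z : ℤ, (N0 : ℚ) * g i = z := by
        refine ⟨∏ i, ((g i).den : ℤ), Finset.prod_ne_zero_iff.2 fun i _ => by
          exact_mod_cast (g i).den_nz, fun i => ?_⟩
        refine ⟨(∏ k ∈ Finset.univ.erase i, ((g k).den : ℤ)) * (g i).num, ?_⟩
        rw [← Finset.mul_prod_erase Finset.univ _ (Finset.mem_univ i)]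
        push_cast
        have h3 : ((g i).den : ℚ) * g i = (g i).num := Rat.den_mul_eq_num _
        rw [mul_comm ((g i).den : ℚ), mul_assoc, h3]
      choose z hz using hNg
      have h4 : ∀ i, z i = 0 := by
        apply (Fintype.linearIndependent_iff.1 hm) z
        funext j
        rw [Finset.sum_apply]
        have h5 := congrFun hg j
        rw [Finset.sum_apply] at h5
        simp only [Pi.smul_apply, smul_eq_mul, Pi.zero_apply] at h5 ⊢
        have h6 : ((∑ i, z i * m i j : ℤ) : ℚ) = 0 := by
          push_cast
          simp only [← hz]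
          rw [show ∑ i, (N0 : ℚ) * g i * (m i j : ℚ) = N0 * ∑ i, g i * (m i j : ℚ) by
            rw [Finset.mul_sum]; exact Finset.sum_congr rfl fun i _ => by ring]
          rw [h5, mul_zero]
        exact_mod_cast h6
      intro i
      have h7 := hz i
      rw [h4 i] at h7
      have h8 : (N0 : ℚ) ≠ 0 := by exact_mod_cast hN0
      exact (mul_eq_zero.1 (by simpa using h7)).resolve_left h8
    -- extend the rational matrix
    obtain ⟨J, hJ⟩ := exists_minor (C := ℚ)
      (fun (i : Fin r) (j : Fin l) => ((m i j : ℤ) : ℚ)) hmQ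
    set A : Matrix (Fin r) (Fin r) ℤ := Matrix.of fun s k => m k (J s) with hA
    have hAdet : ((A.det : ℤ) : ℚ) ≠ 0 := by
      have h2 : ((A.det : ℤ) : ℚ) = (Matrix.of fun s k => ((m k (J s) : ℤ) : ℚ)).det := by
        change (Int.castRingHom ℚ) A.det = _
        rw [RingHom.map_det]
        rfl
      rw [h2]
      exact hJ
    have hAdet' : ((A.det : ℤ) : C) ≠ 0 := by
      have h3 : A.det ≠ 0 := by
        intro h
        apply hAdet
        rw [h]
        simp
      exact_mod_cast h3
    have hAC : ((A.det : ℤ) : C) = (Matrix.of fun s k => ((m k (J s) : ℤ) : C)).det := by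
      change (Int.castRingHom C) A.det = _
      rw [RingHom.map_det]
      rfl
    have hker : (Matrix.of fun s k => ((m k (J s) : ℤ) : C)).mulVec g = 0 := by
      funext s
      have h5 := congrFun hg (J s)
      rw [Finset.sum_apply] at h5
      simp only [Pi.smul_apply, smul_eq_mul, Pi.zero_apply] at h5
      show ∑ k, ((m k (J s) : ℤ) : C) * g k = 0
      rw [← h5]
      exact Finset.sum_congr rfl fun k _ => mul_comm _ _
    have h9 : g = 0 := by
      apply Matrix.eq_zero_of_mulVec_eq_zero _ hker
      rw [← hAC]
      exact hAdet'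
    intro i
    rw [h9]
    rfl
  apply hc0
  funext i
  refine (Fintype.linearIndependent_iff.1 hmC) c ?_ i
  funext j
  rw [Finset.sum_apply]
  have := he0 j
  simpa [he] using this

end

end Pool.Agent.Q221.TW
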