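import Pool.Agent.Q221.TW.Grp
import Pool.Agent.W320.CL.GEN
import Pool.Agent.W245.PB.Gen

set_option autoImplicit false

/-!
# Counting the bad tuples
-/

namespace Pool.Agent.Q221.TW

open Module Finset Pool.Agent.W245 Pool.Agent.W245.PB

open Classical in
/-- For almost all tuples `a` there is a finite dimensional space `W` of `p`-adic numbers over the
algebraic numbers with the properties assumed in `grp`. -/
theorem count (n l : ℕ) (ε : ℝ) (hε : 0 < ε) :
    ∃ x₀ : ℕ, ∀ x ≥ x₀, ∀ (p : ℕ) [Fact p.Prime] (L : PadicAlgCl p → PadicAlgCl p),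
      Pool.Agent.W245.PB.IsIwasawaLog p L → ∀ (K : Type) [Field K] [NumberField K],
      finrank ℚ K = n → ∀ α : Fin l → Kˣ, ∀ B : Finset (Fin l → ℕ),
      B ⊆ Fintype.piFinset (fun _ : Fin l => Ioc 0 x) →
      (∀ a ∈ B, ¬ ∃ W : Submodule (QbarP p) (PadicAlgCl p), (1 : PadicAlgCl p) ∈ W ∧
        (∀ j σ, vec L (α j) σ ∈ W) ∧ ∀ c : Fin l → PadicAlgCl p, (∀ j, c j ∈ W ^ (l + 1)) →
      ∑ j, c j * L (a j) ∈ W ^ (l + 1) → ∀ j, c j = 0) →
      (B.card : ℝ) ≤ ε * (x : ℝ) ^ l := by
  obtain ⟨x₀, hx₀⟩ := density_tuples l ((1 + l * n) ^ (l + 1)) 1 ε hε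
  refine ⟨x₀, fun x hx p _ L hL K _ _ hn α B hB hbad => ?_⟩
  set S : Set (PadicAlgCl p) :=
    insert 1 (Set.range fun q : Fin l × (K →+* PadicAlgCl p) => vec L (α q.1) q.2) with hS
  have hSfin : S.Finite := (Set.finite_range _).insert _
  set W : Submodule (QbarP p) (PadicAlgCl p) := Submodule.span _ S with hW
  haveI : Module.Finite (QbarP p) W := Module.Finite.span_of_finite _ hSfin
  have hWN : finrank (QbarP p) W ≤ 1 + l * n := by
    have h1 : S = ((insert 1 (Finset.univ.image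
        fun q : Fin l × (K →+* PadicAlgCl p) => vec L (α q.1) q.2) : Finset (PadicAlgCl p)) :
        Set (PadicAlgCl p)) := by
      rw [Finset.coe_insert, Finset.coe_image, Finset.coe_univ, Set.image_univ]
    rw [hW, h1]
    refine (finrank_span_finset_le_card _).trans ?_
    refine (Finset.card_insert_le _ _).trans ?_
    rw [add_comm]
    refine Nat.add_le_add_left (Finset.card_image_le.trans ?_) _
    rw [Finset.card_univ, Fintype.card_prod, Fintype.card_fin,
      NumberField.Embeddings.card K (PadicAlgCl p), hn]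
  obtain ⟨hf, hp⟩ := pow_fin W (1 + l * n) (l + 1) inferInstance hWN
  refine hx₀ x hx (QbarP p) (PadicAlgCl p) (fun m : ℕ => L (m : PadicAlgCl p)) hL.logLike
    (W ^ (l + 1)) hf hp B hB ?_
  intro a ha hno
  apply hbad a ha
  refine ⟨W, Submodule.subset_span (Set.mem_insert _ _), fun j σ =>
    Submodule.subset_span (Set.mem_insert_of_mem _ ⟨(j, σ), rfl⟩), fun c hc hs => ?_⟩
  exact Pool.Agent.W320.CL.noLin_of_noRelT hno c hc hs

end Pool.Agent.Q221.TW
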