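import Pool.Agent.Q221.TW.Alg

set_option autoImplicit false

/-!
# Subgroups of a group of algebraic numbers twisted by generic integers: `p`-adic logarithms
-/

namespace Pool.Agent.Q221.TW

open Module Finset Pool.Agent.W245 Pool.Agent.W245.PB

variable {p : ℕ} [Fact p.Prime] {L : PadicAlgCl p → PadicAlgCl p}
variable {K : Type} [Field K] [NumberField K]

/-- the logarithms of the conjugates -/
noncomputable def vec (L : PadicAlgCl p → PadicAlgCl p) (x : Kˣ) :
    (K →+* PadicAlgCl p) → PadicAlgCl p :=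
  fun σ => L (σ (x : K))

/-- the span of the logarithm vectors of the elements of `H` -/
noncomputable def logSpan (L : PadicAlgCl p → PadicAlgCl p) (H : Subgroup Kˣ) :
    Submodule (PadicAlgCl p) ((K →+* PadicAlgCl p) → PadicAlgCl p) :=
  Submodule.span _ (vec L '' (H : Set Kˣ))

omit [NumberField K] in
theorem ne0 (σ : K →+* PadicAlgCl p) (x : Kˣ) : σ (x : K) ≠ 0 :=
  (map_ne_zero σ).2 x.ne_zero

omit [NumberField K] in
theorem vec_mul (hL : IsIwasawaLog p L) (x y : Kˣ) : vec L (x * y) = vec L x + vec L y := by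
  funext σ
  show L (σ ((x * y : Kˣ) : K)) = L (σ x) + L (σ y)
  rw [Units.val_mul, map_mul, hL.mul _ _ (ne0 σ x) (ne0 σ y)]

omit [NumberField K] in
theorem vec_one (hL : IsIwasawaLog p L) : vec L (1 : Kˣ) = 0 := by
  funext σ
  show L (σ ((1 : Kˣ) : K)) = 0
  rw [Units.val_one, map_one, hL.one]

omit [NumberField K] in
theorem vec_zpow (hL : IsIwasawaLog p L) (x : Kˣ) (n : ℤ) (σ : K →+* PadicAlgCl p) :
    vec L (x ^ n) σ = n * vec L x σ := by
  show L (σ ((x ^ n : Kˣ) : K)) = n * L (σ x)
  rw [Units.val_zpow_eq_zpow_val, map_zpow₀, hL.zpow (ne0 σ x)]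

/-- the product of the powers of the `g j` -/
def P {l : ℕ} (g : Fin l → Kˣ) (m : Fin l → ℤ) : Kˣ := ∏ j, g j ^ m j

omit [NumberField K] in
theorem P_add {l : ℕ} (g : Fin l → Kˣ) (m m' : Fin l → ℤ) : P g (m + m') = P g m * P g m' := by
  unfold P
  rw [← Finset.prod_mul_distrib]
  exact Finset.prod_congr rfl fun j _ => by rw [Pi.add_apply, zpow_add]

omit [NumberField K] in
theorem P_zero {l : ℕ} (g : Fin l → Kˣ) : P g 0 = 1 := by
  unfold P
  simp

omit [NumberField K] in
theorem P_neg {l : ℕ} (g : Fin l → Kˣ) (m : Fin l → ℤ) : P g (-m) = (P g m)⁻¹ := by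
  unfold P
  simp

omit [NumberField K] in
theorem exists_P {l : ℕ} (g : Fin l → Kˣ) {x : Kˣ} (hx : x ∈ Subgroup.closure (Set.range g)) :
    ∃ m, P g m = x := by
  classical
  induction hx using Subgroup.closure_induction with
  | mem x h =>
    obtain ⟨j, rfl⟩ := h
    refine ⟨Pi.single j 1, ?_⟩
    unfold P
    rw [Finset.prod_eq_single j]
    · simp
    · intro i _ hij
      rw [Pi.single_eq_of_ne hij, zpow_zero]
    · intro h
      exact absurd (Finset.mem_univ _) h
  | one => exact ⟨0, P_zero g⟩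
  | mul x y _ _ h1 h2 =>
    obtain ⟨a, rfl⟩ := h1
    obtain ⟨b, rfl⟩ := h2
    exact ⟨a + b, P_add g a b⟩
  | inv x _ h =>
    obtain ⟨a, rfl⟩ := h
    exact ⟨-a, P_neg g a⟩

omit [NumberField K] in
theorem vec_P (hL : IsIwasawaLog p L) {l : ℕ} (α : Fin l → Kˣ) (a : Fin l → ℕ)
    (ha : ∀ j, 0 < a j) (g : Fin l → Kˣ) (hg : ∀ j, (g j : K) = a j * α j) (m : Fin l → ℤ) :
    vec L (P g m) = fun σ => ∑ j, (m j : PadicAlgCl p) * (L (a j) + vec L (α j) σ) := by
  classical
  have key : ∀ (s : Finset (Fin l)) (σ : K →+* PadicAlgCl p), vec L (∏ j ∈ s, g j ^ m j) σ =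
      ∑ j ∈ s, (m j : PadicAlgCl p) * vec L (g j) σ := by
    intro s σ
    induction s using Finset.induction_on with
    | empty =>
      rw [Finset.prod_empty, vec_one hL]
      simp
    | insert i s hi ih =>
      rw [Finset.prod_insert hi, vec_mul hL, Pi.add_apply, ih, vec_zpow hL,
        Finset.sum_insert hi]
  funext σ
  unfold P
  rw [key]
  refine Finset.sum_congr rfl fun j _ => ?_
  congr 1
  show L (σ (g j : K)) = L (a j) + L (σ (α j : K))
  have h0 : ((a j : ℕ) : PadicAlgCl p) ≠ 0 := Nat.cast_ne_zero.2 (ha j).ne'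
  rw [hg, map_mul, map_natCast, hL.mul _ _ h0 (ne0 σ (α j))]

/-- The main theorem for one good tuple. -/
theorem grp (hL : IsIwasawaLog p L) {l : ℕ} (α : Fin l → Kˣ) (a : Fin l → ℕ)
    (ha : ∀ j, 0 < a j) (g : Fin l → Kˣ) (hg : ∀ j, (g j : K) = a j * α j)
    (W : Submodule (QbarP p) (PadicAlgCl p)) (h1 : (1 : PadicAlgCl p) ∈ W)
    (hW : ∀ j σ, vec L (α j) σ ∈ W)
    (hNL : ∀ c : Fin l → PadicAlgCl p, (∀ j, c j ∈ W ^ (l + 1)) →
      ∑ j, c j * L (a j) ∈ W ^ (l + 1) → ∀ j, c j = 0) :
    (∀ m : Fin l → ℤ, P g m = 1 → m = 0) ∧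
    ∀ H : Subgroup Kˣ, H ≤ Subgroup.closure (Set.range g) →
      ∃ (r : ℕ) (_ : Basis (Fin r) ℤ (Additive H)),
        finrank (PadicAlgCl p) (logSpan L H) ≤ r ∧
        (finrank (PadicAlgCl p) (logSpan L H) = r ∨
          (fun _ => (1 : PadicAlgCl p)) ∈ logSpan L H) := by
  classical
  obtain ⟨s0⟩ : Nonempty (K →+* PadicAlgCl p) := inferInstance
  have hint : ∀ (V : Submodule (QbarP p) (PadicAlgCl p)) (z : ℤ) (x : PadicAlgCl p), x ∈ V →
      (z : PadicAlgCl p) * x ∈ V := by
    intro V z x hx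
    have := zsmul_mem hx z
    simpa [zsmul_eq_mul] using this
  have hWl : W ≤ W ^ (l + 1) := by
    have := le_pow_of_one (κ := QbarP p) h1 (show 1 ≤ l + 1 by omega)
    rwa [pow_one] at this
  have hfree : ∀ m : Fin l → ℤ, P g m = 1 → m = 0 := by
    intro m hm
    have h2 := congrFun (vec_P hL α a ha g hg m) s0
    rw [hm, vec_one hL] at h2
    have h3 : ∑ j, (m j : PadicAlgCl p) * L (a j) =
        -∑ j, (m j : PadicAlgCl p) * vec L (α j) s0 := by
      rw [eq_neg_iff_add_eq_zero, ← Finset.sum_add_distrib]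
      refine Eq.trans ?_ h2.symm
      exact Finset.sum_congr rfl fun j _ => by ring
    have h4 := hNL (fun j => (m j : PadicAlgCl p)) (fun j => by
      have := hint _ (m j) 1 (hWl h1)
      simpa using this) (by
        rw [h3]
        exact Submodule.neg_mem _ (Submodule.sum_mem _ fun j _ => hint _ _ _ (hWl (hW _ _))))
    funext j
    exact_mod_cast h4 j
  refine ⟨hfree, fun H hH => ?_⟩
  let M : Submodule ℤ (Fin l → ℤ) := AddSubgroup.toIntSubmodule
    { carrier := {m | P g m ∈ H}
      add_mem' := by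
        intro m m' hm hm'
        show P g (m + m') ∈ H
        rw [P_add]
        exact H.mul_mem hm hm'
      zero_mem' := by
        show P g 0 ∈ H
        rw [P_zero]
        exact H.one_mem
      neg_mem' := by
        intro m hm
        show P g (-m) ∈ H
        rw [P_neg]
        exact H.inv_mem hm }
  let f : M →+ Additive H :=
    { toFun := fun m => Additive.ofMul (⟨P g m.1, m.2⟩ : H)
      map_zero' := by
        show Additive.ofMul (⟨P g 0, _⟩ : H) = Additive.ofMul 1
        congr 1
        exact Subtype.ext (P_zero g)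
      map_add' := by
        intro m m'
        show Additive.ofMul (⟨P g (m.1 + m'.1), _⟩ : H) =
          Additive.ofMul ((⟨P g m.1, m.2⟩ : H) * ⟨P g m'.1, m'.2⟩)
        congr 1
        exact Subtype.ext (P_add g _ _) }
  have hfinj : Function.Injective f := by
    rw [injective_iff_map_eq_zero]
    intro m hm
    have h2 : P g m.1 = 1 := congrArg Subtype.val (congrArg Additive.toMul hm)
    exact Subtype.ext (hfree _ h2)
  have hfsur : Function.Surjective f := by
    intro y
    obtain ⟨m, hm⟩ := exists_P g (hH (Additive.toMul y).2)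
    refine ⟨⟨m, show P g m ∈ H by rw [hm]; exact (Additive.toMul y).2⟩, ?_⟩
    show Additive.ofMul (⟨P g m, _⟩ : H) = y
    apply congrArg Additive.ofMul (a₂ := Additive.toMul y)
    exact Subtype.ext hm
  let e : M ≃ₗ[ℤ] Additive H := LinearEquiv.ofBijective f.toIntLinearMap ⟨hfinj, hfsur⟩
  let bM := Module.finBasis ℤ M
  set r := finrank ℤ M with hr
  have hmli : LinearIndependent ℤ (fun i : Fin r => ((bM i : M) : Fin l → ℤ)) := by
    have := bM.linearIndependent.map' M.subtype (Submodule.ker_subtype _)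
    exact this
  set lam : Fin r → (K →+* PadicAlgCl p) → PadicAlgCl p := fun i σ =>
    ∑ j, (((bM i : M) : Fin l → ℤ) j : PadicAlgCl p) * (L (a j) + vec L (α j) σ) with hlam
  have hlamv : ∀ i, vec L (P g (bM i : M).1) = lam i := fun i => vec_P hL α a ha g hg _
  have hspan : logSpan L H = Submodule.span _ (Set.range lam) := by
    apply le_antisymm
    · refine Submodule.span_le.2 ?_
      rintro _ ⟨x, hx, rfl⟩
      obtain ⟨m, hm⟩ := exists_P g (hH hx)
      have hmM : m ∈ M := show P g m ∈ H by rw [hm]; exact hx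
      have h2 := bM.sum_repr ⟨m, hmM⟩
      have h3 : m = ∑ i, bM.repr ⟨m, hmM⟩ i • ((bM i : M) : Fin l → ℤ) := by
        have h4 := congrArg Subtype.val h2
        refine h4.symm.trans ?_
        rw [Submodule.coe_sum]
        rfl
      have h5 : vec L x = ∑ i, ((bM.repr ⟨m, hmM⟩ i : ℤ) : PadicAlgCl p) • lam i := by
        rw [← hm, vec_P hL α a ha g hg m]
        funext σ
        rw [Finset.sum_apply]
        simp only [Pi.smul_apply, smul_eq_mul, hlam, Finset.mul_sum]
        rw [Finset.sum_comm]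
        refine Finset.sum_congr rfl fun j _ => ?_
        conv_lhs => rw [h3]
        rw [Finset.sum_apply]
        push_cast
        rw [Finset.sum_mul]
        refine Finset.sum_congr rfl fun i _ => ?_
        rw [Pi.smul_apply, smul_eq_mul]
        push_cast
        ring
      rw [h5]
      exact Submodule.sum_mem _ fun i _ => Submodule.smul_mem _ _ (Submodule.subset_span ⟨i, rfl⟩)
    · refine Submodule.span_le.2 ?_
      rintro _ ⟨i, rfl⟩
      rw [← hlamv]
      exact Submodule.subset_span ⟨_, (bM i).2, rfl⟩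
  refine ⟨r, bM.map e, ?_, ?_⟩
  · rw [hspan]
    refine (finrank_range_le_card lam).trans ?_
    rw [Fintype.card_fin]
  · by_cases hone : (fun _ => (1 : PadicAlgCl p)) ∈ logSpan L H
    · exact Or.inr hone
    · left
      rw [hspan] at hone ⊢
      have h2 := core s0 h1 (fun j σ => vec L (α j) σ) hW (fun j => L (a j)) hNL
        (fun i => ((bM i : M) : Fin l → ℤ)) hmli hone
      have h3 := finrank_span_eq_card h2
      rw [Fintype.card_fin] at h3
      exact h3

end Pool.Agent.Q221.TW
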