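import Pool.Agent.Q221.TW.Fin

set_option autoImplicit false

/-!
# The whole group, and quadratic fields
-/

namespace Pool.Agent.Q221.TW

open Module Finset Pool.Agent.W245 Pool.Agent.W245.PB

variable {p : ℕ} [Fact p.Prime] {L : PadicAlgCl p → PadicAlgCl p}
variable {K : Type} [Field K] [NumberField K]

/-- The rank of a commutative group. -/
noncomputable def rk (G : Type) [CommGroup G] : ℕ := Module.finrank ℤ (Additive G)

/-- The group `ℚˣ` in `Kˣ`. -/
def ratUnits (K : Type) [Field K] [NumberField K] : Subgroup Kˣ :=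
  (Units.map (algebraMap ℚ K : ℚ →* K)).range

omit [NumberField K] in
theorem vec_mem (H : Subgroup Kˣ) {x : Kˣ} (hx : x ∈ H) : vec L x ∈ logSpan L H :=
  Submodule.subset_span ⟨x, hx, rfl⟩

omit [NumberField K] in
theorem rk_closure {l : ℕ} (g : Fin l → Kˣ) (hfree : ∀ m : Fin l → ℤ, P g m = 1 → m = 0) :
    rk (Subgroup.closure (Set.range g)) = l := by
  classical
  set H := Subgroup.closure (Set.range g) with hH
  have hmem : ∀ m, P g m ∈ H := by
    intro m
    unfold P
    exact Subgroup.prod_mem _ fun j _ => H.zpow_mem (Subgroup.subset_closure ⟨j, rfl⟩) _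
  let f : (Fin l → ℤ) →+ Additive H :=
    { toFun := fun m => Additive.ofMul (⟨P g m, hmem m⟩ : H)
      map_zero' := by
        show Additive.ofMul (⟨P g 0, _⟩ : H) = Additive.ofMul 1
        congr 1
        exact Subtype.ext (P_zero g)
      map_add' := by
        intro m m'
        show Additive.ofMul (⟨P g (m + m'), _⟩ : H) =
          Additive.ofMul ((⟨P g m, hmem m⟩ : H) * ⟨P g m', hmem m'⟩)
        congr 1
        exact Subtype.ext (P_add g _ _) }
  have hfinj : Function.Injective f := by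
    rw [injective_iff_map_eq_zero]
    intro m hm
    have h2 : P g m = 1 := congrArg Subtype.val (congrArg Additive.toMul hm)
    exact hfree _ h2
  have hfsur : Function.Surjective f := by
    intro y
    obtain ⟨m, hm⟩ := exists_P g (Additive.toMul y).2
    refine ⟨m, ?_⟩
    apply congrArg Additive.ofMul (a₂ := Additive.toMul y)
    exact Subtype.ext hm
  let e : (Fin l → ℤ) ≃ₗ[ℤ] Additive H := LinearEquiv.ofBijective f.toIntLinearMap ⟨hfinj, hfsur⟩
  unfold rk
  rw [← e.finrank_eq, Module.finrank_fin_fun]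

/-- Two units whose logarithms agree agree up to a root of unity. -/
theorem pow_eq_of_log (hL : IsIwasawaLog p L) {y : PadicAlgCl p} (hy : ‖y‖ = 1) (h0 : L y = 0) :
    ∃ m : ℕ, 0 < m ∧ y ^ m = 1 := by
  have hp := (Fact.out : p.Prime)
  have hp1 : (1 : ℝ) < p := by exact_mod_cast hp.one_lt
  have hy0 : y ≠ 0 := by
    rintro rfl
    rw [norm_zero] at hy
    exact zero_ne_one hy
  obtain ⟨m, r, hm, hnear⟩ := exists_near (p := p) hy0
  have hlt : ‖y ^ m * (p : PadicAlgCl p) ^ r - 1‖ < 1 := by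
    have h3 : (1 : ℝ) < (p : ℝ) ^ 3 := one_lt_pow₀ hp1 (by norm_num)
    by_contra hcon
    push Not at hcon
    have : (1 : ℝ) * (p : ℝ) ^ 3 ≤ ‖y ^ m * (p : PadicAlgCl p) ^ r - 1‖ * (p : ℝ) ^ 3 :=
      mul_le_mul_of_nonneg_right hcon (by positivity)
    linarith
  have hn1 : ‖y ^ m * (p : PadicAlgCl p) ^ r‖ = 1 := by
    have h4 := IsUltrametricDist.norm_add_eq_max_of_norm_ne_norm
      (x := y ^ m * (p : PadicAlgCl p) ^ r - 1) (y := (1 : PadicAlgCl p))
      (by rw [norm_one]; exact hlt.ne)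
    rw [sub_add_cancel, norm_one, max_eq_right hlt.le] at h4
    exact h4
  have hr : r = 0 := by
    rw [norm_mul, norm_pow, hy, one_pow, one_mul, norm_zpow, norm_p p] at hn1
    have h5 : ((p : ℝ)⁻¹) ^ r = 1 := hn1
    by_contra hr0
    have h6 := (zpow_eq_one_iff_right₀ (a := (p : ℝ)⁻¹) (by positivity)
      (by
        intro h
        rw [inv_eq_one] at h
        linarith)).1 h5
    exact hr0 h6
  subst hr
  rw [zpow_zero, mul_one] at hnear
  refine ⟨m, hm, hL.eq_one hnear ?_⟩
  rw [hL.pow hy0, h0, mul_zero]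

/-- An element of a number field all of whose conjugates agree is rational. -/
theorem mem_ratUnits_of_conj (x : Kˣ) (h : ∀ σ τ : K →+* PadicAlgCl p, σ (x : K) = τ (x : K)) :
    x ∈ ratUnits K := by
  classical
  obtain ⟨s0⟩ : Nonempty (K →+* PadicAlgCl p) := inferInstance
  have hint : IsIntegral ℚ (x : K) := Algebra.IsIntegral.isIntegral _
  have h1 := NumberField.Embeddings.range_eval_eq_rootSet_minpoly K (PadicAlgCl p) (x : K)
  have h2 : Set.range (fun φ : K →+* PadicAlgCl p => φ (x : K)) = {s0 (x : K)} := by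
    ext z
    constructor
    · rintro ⟨φ, rfl⟩
      exact h _ _
    · rintro rfl
      exact ⟨s0, rfl⟩
  rw [h2] at h1
  have h3 : Fintype.card ((minpoly ℚ (x : K)).rootSet (PadicAlgCl p)) =
      (minpoly ℚ (x : K)).natDegree :=
    Polynomial.card_rootSet_eq_natDegree (minpoly.irreducible hint).separable
      (IsAlgClosed.splits _)
  have h4 : Fintype.card ((minpoly ℚ (x : K)).rootSet (PadicAlgCl p)) = 1 := by
    rw [Fintype.card_eq_one_iff]
    refine ⟨⟨s0 (x : K), by rw [← h1]; rfl⟩, ?_⟩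
    rintro ⟨z, hz⟩
    apply Subtype.ext
    rw [← h1] at hz
    exact hz
  rw [h4] at h3
  obtain ⟨q, hq⟩ := minpoly.natDegree_eq_one_iff.1 h3.symm
  have hq0 : q ≠ 0 := by
    rintro rfl
    rw [map_zero] at hq
    exact x.ne_zero hq.symm
  exact ⟨Units.mk0 q hq0, Units.ext hq⟩

/-- Quadratic fields. -/
theorem two (hL : IsIwasawaLog p L) (hn : finrank ℚ K = 2) (H : Subgroup Kˣ) {r : ℕ}
    (b : Basis (Fin r) ℤ (Additive H)) (h1 : finrank (PadicAlgCl p) (logSpan L H) ≤ r)
    (h2 : (fun _ => (1 : PadicAlgCl p)) ∈ logSpan L H)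
    (hu : ∀ x ∈ H, ∀ σ : K →+* PadicAlgCl p, ‖σ (x : K)‖ = 1) :
    finrank (PadicAlgCl p) (logSpan L H) = r ∨ 2 < r ∨ 1 < rk ↥(H ⊓ ratUnits K) := by
  classical
  obtain ⟨s0⟩ : Nonempty (K →+* PadicAlgCl p) := inferInstance
  have hcard : Fintype.card (K →+* PadicAlgCl p) = 2 := by
    rw [NumberField.Embeddings.card K (PadicAlgCl p), hn]
  have htot : finrank (PadicAlgCl p) (logSpan L H) ≤ 2 := by
    refine (Submodule.finrank_le _).trans ?_
    rw [Module.finrank_pi, hcard]
  by_cases hV : 2 ≤ finrank (PadicAlgCl p) (logSpan L H)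
  · have h3 : finrank (PadicAlgCl p) (logSpan L H) = 2 := le_antisymm htot hV
    rcases (h3.symm.le.trans h1).eq_or_lt with h4 | h4
    · left
      rw [h3, h4]
    · right; left
      exact h4
  push Not at hV
  have hone : (fun _ => (1 : PadicAlgCl p) : (K →+* PadicAlgCl p) → PadicAlgCl p) ≠ 0 := by
    intro h
    exact one_ne_zero (congrFun h s0)
  have hV1 : finrank (PadicAlgCl p) (logSpan L H) = 1 := by
    have h3 : 0 < finrank (PadicAlgCl p) (logSpan L H) := by
      rw [Module.finrank_pos_iff_exists_ne_zero]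
      exact ⟨⟨_, h2⟩, fun h => hone (congrArg Subtype.val h)⟩
    omega
  by_cases hr : r ≤ 1
  · left
    omega
  push Not at hr
  right; right
  have hconst : ∀ x ∈ H, ∀ σ τ : K →+* PadicAlgCl p, L (σ (x : K)) = L (τ (x : K)) := by
    intro x hx σ τ
    obtain ⟨c, hc⟩ := exists_smul_eq_of_finrank_eq_one hV1
      (x := (⟨_, h2⟩ : logSpan L H)) (fun h => hone (congrArg Subtype.val h))
      (⟨vec L x, vec_mem H hx⟩ : logSpan L H)
    have h3 : c • (fun _ => (1 : PadicAlgCl p) : (K →+* PadicAlgCl p) → PadicAlgCl p) = vec L x :=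
      congrArg Subtype.val hc
    have h4 := congrFun h3 σ
    have h5 := congrFun h3 τ
    exact h4.symm.trans h5
  have hpow : ∀ x ∈ H, ∃ m : ℕ, 0 < m ∧ x ^ m ∈ ratUnits K := by
    intro x hx
    have h3 : ∀ σ τ : K →+* PadicAlgCl p, ∃ m : ℕ, 0 < m ∧ σ (x : K) ^ m = τ (x : K) ^ m := by
      intro σ τ
      have hτ : τ (x : K) ≠ 0 := ne0 τ x
      have hσ : σ (x : K) ≠ 0 := ne0 σ x
      obtain ⟨m, hm, h4⟩ := pow_eq_of_log hL (y := σ (x : K) / τ (x : K))
        (by rw [norm_div, hu x hx σ, hu x hx τ, div_one])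
        (by
          have h5 := hL.mul (σ (x : K) / τ (x : K)) (τ (x : K)) (div_ne_zero hσ hτ) hτ
          rw [div_mul_cancel₀ _ hτ, hconst x hx σ τ] at h5
          simpa using h5.symm)
      refine ⟨m, hm, ?_⟩
      rwa [div_pow, div_eq_one_iff_eq (pow_ne_zero _ hτ)] at h4
    choose! m hm hmp using h3
    refine ⟨∏ q : (K →+* PadicAlgCl p) × (K →+* PadicAlgCl p), m q.1 q.2,
      Finset.prod_pos fun q _ => hm _ _, mem_ratUnits_of_conj (p := p) _ fun σ τ => ?_⟩
    rw [← Finset.mul_prod_erase Finset.univ _ (Finset.mem_univ (σ, τ)), Units.val_pow_eq_pow_val,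
      map_pow, map_pow, pow_mul, pow_mul, hmp σ τ]
  choose! m hm hmp using hpow
  haveI : Module.Finite ℤ (Additive H) := Module.Finite.of_basis b
  let ι : Additive ↥(H ⊓ ratUnits K) →ₗ[ℤ] Additive H :=
    (MonoidHom.toAdditive (Subgroup.inclusion (inf_le_left : H ⊓ ratUnits K ≤ H))).toIntLinearMap
  have hι : Function.Injective ι := Subgroup.inclusion_injective inf_le_left
  haveI : Module.Finite ℤ (Additive ↥(H ⊓ ratUnits K)) := Module.Finite.of_injective ι hι
  let x : Fin r → H := fun i => Additive.toMul (b i)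
  let c : Fin r → Additive ↥(H ⊓ ratUnits K) := fun i =>
    Additive.ofMul ⟨(x i : Kˣ) ^ m (x i : Kˣ), H.pow_mem (x i).2 _, hmp _ (x i).2⟩
  have hc : ∀ i, ι (c i) = ((m (x i : Kˣ) : ℕ) : ℤ) • b i := by
    intro i
    rw [natCast_zsmul]
    apply congrArg Additive.ofMul (a₂ := (x i) ^ m (x i : Kˣ))
    exact Subtype.ext rfl
  have hli : LinearIndependent ℤ c := by
    apply LinearIndependent.of_comp ι
    rw [Fintype.linearIndependent_iff]
    intro g hg i
    have h3 : ∑ i, (g i * (m (x i : Kˣ) : ℕ)) • b i = 0 := by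
      refine Eq.trans ?_ hg
      refine Finset.sum_congr rfl fun j _ => ?_
      rw [Function.comp_apply, hc, smul_smul]
    have h4 := Fintype.linearIndependent_iff.1 b.linearIndependent _ h3 i
    rcases mul_eq_zero.1 h4 with h5 | h5
    · exact h5
    · have := hm _ (x i).2
      exfalso
      have h6 : m (x i : Kˣ) = 0 := by exact_mod_cast h5
      omega
  have h7 := hli.fintype_card_le_finrank
  rw [Fintype.card_fin] at h7
  show 1 < Module.finrank ℤ (Additive ↥(H ⊓ ratUnits K))
  omega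

end Pool.Agent.Q221.TW
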